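import Mathlib

set_option autoImplicit false

namespace Pool.Agent.Results.MP_071e18_gt.Counter

open Set MeasureTheory EuclideanGeometry ENNReal

abbrev E2 := EuclideanSpace ℝ (Fin 2)

/-- The ratio `length (∂K ∩ K') / length (∂K' ∩ K)`. -/
noncomputable def R (K K' : Set E2) : ℝ≥0∞ :=
  μH[1] (frontier K ∩ K') / μH[1] (frontier K' ∩ K)

/-- The supremum of the ratio over overlapping pairs of congruent copies of `T`. -/
noncomputable def M (T : Set E2) : ℝ≥0∞ :=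
  ⨆ (g : E2 → E2) (_ : Isometry g) (g' : E2 → E2) (_ : Isometry g')
    (_ : (interior (g '' T) ∩ interior (g' '' T)).Nonempty ∧ g '' T ≠ g' '' T),
    R (g '' T) (g' '' T)

/-- The smallest angle of the triangle `a b c`. -/
noncomputable def minAngle (a b c : E2) : ℝ := min (∠ c a b) (min (∠ a b c) (∠ b c a))

noncomputable def pt (x y : ℝ) : E2 := !₂[x, y]

@[simp] lemma pt0 (x y : ℝ) : pt x y 0 = x := rfl
@[simp] lemma pt1 (x y : ℝ) : pt x y 1 = y := rfl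

lemma ext2 {p q : E2} (h0 : p 0 = q 0) (h1 : p 1 = q 1) : p = q := by
  ext i; fin_cases i
  · exact h0
  · exact h1

lemma dist2 (p q : E2) : dist p q = Real.sqrt ((p 0 - q 0) ^ 2 + (p 1 - q 1) ^ 2) := by
  rw [EuclideanSpace.dist_eq, Fin.sum_univ_two, Real.dist_eq, Real.dist_eq, sq_abs, sq_abs]

lemma edist2 (p q : E2) (d : ℝ) (hd : 0 ≤ d) (h : (p 0 - q 0) ^ 2 + (p 1 - q 1) ^ 2 = d ^ 2) :
    edist p q = ENNReal.ofReal d := by
  rw [edist_dist, dist2, h, Real.sqrt_sq hd]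

def T : Set E2 := convexHull ℝ {pt 0 0, pt 6 0, pt 3 4}

lemma mem_T (p : E2) : p ∈ T ↔ 0 ≤ p 1 ∧ 0 ≤ 4 * p 0 - 3 * p 1 ∧ 4 * p 0 + 3 * p 1 ≤ 24 := by
  constructor
  · intro hp
    have : T ⊆ {p : E2 | 0 ≤ p 1 ∧ 0 ≤ 4 * p 0 - 3 * p 1 ∧ 4 * p 0 + 3 * p 1 ≤ 24} := by
      apply convexHull_min
      · rintro _ (rfl | rfl | rfl) <;> norm_num
      · rintro x ⟨x1, x2, x3⟩ y ⟨y1, y2, y3⟩ a b ha hb hab
        simp only [Set.mem_ofPred_eq, PiLp.add_apply, PiLp.smul_apply, smul_eq_mul]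
        refine ⟨by positivity, by nlinarith, by nlinarith⟩
    exact this hp
  · rintro ⟨h1, h2, h3⟩
    have := (convex_convexHull ℝ ({pt 0 0, pt 6 0, pt 3 4} : Set E2)).sum_mem
      (t := Finset.univ) (w := ![(24 - 4 * p 0 - 3 * p 1) / 24, (4 * p 0 - 3 * p 1) / 24, p 1 / 4])
      (z := ![pt 0 0, pt 6 0, pt 3 4])
      (by intro i _; fin_cases i <;> simp <;> linarith)
      (by simp [Fin.sum_univ_three]; ring)
      (by intro i _; apply subset_convexHull; fin_cases i <;> simp)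
    unfold T
    convert this using 1
    apply ext2 <;> simp [Fin.sum_univ_three] <;> ring

noncomputable def g (p : E2) : E2 :=
  pt (3 / 5 * p 0 + 4 / 5 * p 1 - 2 / 5) (4 / 5 * p 0 - 3 / 5 * p 1 - 1 / 5)

lemma g_iso : Isometry g := by
  apply Isometry.of_dist_eq
  intro p q
  rw [dist2, dist2]
  congr 1
  simp only [g, pt0, pt1]
  ring

lemma mem_g (p : E2) :
    p ∈ g '' T ↔ -1 / 5 ≤ p 1 ∧ -1 ≤ 4 * p 0 - 3 * p 1 ∧ 24 * p 0 + 7 * p 1 ≤ 109 := by
  constructor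
  · rintro ⟨q, hq, rfl⟩
    obtain ⟨h1, h2, h3⟩ := (mem_T q).1 hq
    simp only [g, pt0, pt1]
    refine ⟨by linarith, by linarith, by linarith⟩
  · rintro ⟨h1, h2, h3⟩
    refine ⟨pt (3 / 5 * (p 0 + 2 / 5) + 4 / 5 * (p 1 + 1 / 5))
      (4 / 5 * (p 0 + 2 / 5) - 3 / 5 * (p 1 + 1 / 5)), ?_, ?_⟩
    · rw [mem_T]
      simp only [pt0, pt1]
      refine ⟨by linarith, by linarith, by linarith⟩
    · apply ext2 <;> simp only [g, pt0, pt1] <;> ring

lemma int_T {p : E2} (h1 : 0 < p 1) (h2 : 0 < 4 * p 0 - 3 * p 1) (h3 : 4 * p 0 + 3 * p 1 < 24) :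
    p ∈ interior T := by
  refine mem_interior.2 ⟨{p : E2 | 0 < p 1} ∩ ({p : E2 | 0 < 4 * p 0 - 3 * p 1} ∩
    {p : E2 | 4 * p 0 + 3 * p 1 < 24}), ?_, ?_, h1, h2, h3⟩
  · rintro q ⟨a, b, c⟩
    exact (mem_T q).2 ⟨le_of_lt a, le_of_lt b, le_of_lt c⟩
  · exact (isOpen_lt (by fun_prop) (by fun_prop)).inter
      ((isOpen_lt (by fun_prop) (by fun_prop)).inter (isOpen_lt (by fun_prop) (by fun_prop)))

lemma int_g {p : E2} (h1 : -1 / 5 < p 1) (h2 : -1 < 4 * p 0 - 3 * p 1)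
    (h3 : 24 * p 0 + 7 * p 1 < 109) : p ∈ interior (g '' T) := by
  refine mem_interior.2 ⟨{p : E2 | -1 / 5 < p 1} ∩ ({p : E2 | -1 < 4 * p 0 - 3 * p 1} ∩
    {p : E2 | 24 * p 0 + 7 * p 1 < 109}), ?_, ?_, h1, h2, h3⟩
  · rintro q ⟨a, b, c⟩
    exact (mem_g q).2 ⟨le_of_lt a, le_of_lt b, le_of_lt c⟩
  · exact (isOpen_lt (by fun_prop) (by fun_prop)).inter
      ((isOpen_lt (by fun_prop) (by fun_prop)).inter (isOpen_lt (by fun_prop) (by fun_prop)))

lemma front_T {p : E2} (hp : p ∈ T) (h : p 1 = 0 ∨ 4 * p 0 - 3 * p 1 = 0) : p ∈ frontier T := by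
  refine ⟨subset_closure hp, fun hi => ?_⟩
  have hc : Continuous (fun s : ℝ => p - s • pt 1 1) := by fun_prop
  have h0 : (fun s : ℝ => p - s • pt 1 1) ⁻¹' interior T ∈ nhds (0 : ℝ) := by
    apply hc.continuousAt.preimage_mem_nhds
    simpa using isOpen_interior.mem_nhds hi
  obtain ⟨ε, hε, hb⟩ := Metric.mem_nhds_iff.1 h0
  have h1 : p - (ε / 2) • pt 1 1 ∈ T := by
    apply interior_subset
    apply hb
    rw [Metric.mem_ball, Real.dist_eq, sub_zero, abs_of_pos (by linarith)]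
    linarith
  obtain ⟨a, b, -⟩ := (mem_T _).1 h1
  simp only [PiLp.sub_apply, PiLp.smul_apply, smul_eq_mul, pt0, pt1] at a b
  rcases h with h | h <;> linarith

lemma num_ge : ENNReal.ofReal 9 ≤ μH[1] (frontier T ∩ g '' T) := by
  have s1 : ∀ p ∈ segment ℝ (pt 0 0) (pt 3 4), ∃ t, 0 ≤ t ∧ t ≤ 1 ∧ p 0 = 3 * t ∧ p 1 = 4 * t := by
    rintro _ ⟨a, b, ha, hb, hab, rfl⟩
    exact ⟨b, hb, by linarith, by simp; ring, by simp; ring⟩
  have s2 : ∀ p ∈ segment ℝ (pt (1 / 2) 0) (pt (9 / 2) 0), 1 / 2 ≤ p 0 ∧ p 0 ≤ 9 / 2 ∧ p 1 = 0 := by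
    rintro _ ⟨a, b, ha, hb, hab, rfl⟩
    simp only [PiLp.add_apply, PiLp.smul_apply, smul_eq_mul, pt0, pt1]
    exact ⟨by linarith, by linarith, by ring⟩
  have hsub : segment ℝ (pt 0 0) (pt 3 4) ∪ segment ℝ (pt (1 / 2) 0) (pt (9 / 2) 0)
      ⊆ frontier T ∩ g '' T := by
    rintro p (hp | hp)
    · obtain ⟨t, t0, t1, e0, e1⟩ := s1 p hp
      exact ⟨front_T ((mem_T p).2 ⟨by linarith, by linarith, by linarith⟩) (Or.inr (by linarith)),
        (mem_g p).2 ⟨by linarith, by linarith, by linarith⟩⟩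
    · obtain ⟨t0, t1, e1⟩ := s2 p hp
      exact ⟨front_T ((mem_T p).2 ⟨by linarith, by linarith, by linarith⟩) (Or.inl e1),
        (mem_g p).2 ⟨by linarith, by linarith, by linarith⟩⟩
  refine le_trans ?_ (measure_mono hsub)
  rw [measure_union, hausdorffMeasure_segment, hausdorffMeasure_segment,
    edist2 _ _ 5 (by norm_num) (by norm_num), edist2 _ _ 4 (by norm_num) (by norm_num),
    ← ENNReal.ofReal_add (by norm_num) (by norm_num)]
  · norm_num
  · rw [Set.disjoint_left]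
    intro p h1 h2
    obtain ⟨t, t0, t1, e0, e1⟩ := s1 p h1
    obtain ⟨u0, u1, e2⟩ := s2 p h2
    linarith
  · rw [segment_eq_image]
    exact (isCompact_Icc.image (by fun_prop)).isClosed.measurableSet

lemma den_le : μH[1] (frontier (g '' T) ∩ T) ≤ ENNReal.ofReal (10 / 3) := by
  have hcl : IsClosed (g '' T) := by
    have : g '' T = {p : E2 | -1 / 5 ≤ p 1} ∩ ({p : E2 | -1 ≤ 4 * p 0 - 3 * p 1} ∩
        {p : E2 | 24 * p 0 + 7 * p 1 ≤ 109}) := Set.ext fun p => mem_g p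
    rw [this]
    exact (isClosed_le (by fun_prop) (by fun_prop)).inter
      ((isClosed_le (by fun_prop) (by fun_prop)).inter (isClosed_le (by fun_prop) (by fun_prop)))
  have hsub : frontier (g '' T) ∩ T ⊆ segment ℝ (pt (109 / 24) 0) (pt (109 / 24 - 14 / 15) (16 / 5)) := by
    rintro p ⟨⟨h1, h2⟩, hp⟩
    rw [hcl.closure_eq] at h1
    obtain ⟨a1, a2, a3⟩ := (mem_T p).1 hp
    obtain ⟨-, -, b3⟩ := (mem_g p).1 h1
    have b4 : 24 * p 0 + 7 * p 1 = 109 := by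
      by_contra hne
      exact h2 (int_g (by linarith) (by linarith) (lt_of_le_of_ne b3 hne))
    refine ⟨1 - 5 / 16 * p 1, 5 / 16 * p 1, by linarith, by linarith, by ring, ?_⟩
    apply ext2 <;> simp only [PiLp.add_apply, PiLp.smul_apply, smul_eq_mul, pt0, pt1] <;> linarith
  refine le_trans (measure_mono hsub) ?_
  rw [hausdorffMeasure_segment, edist2 _ _ (10 / 3) (by norm_num) (by norm_num)]

lemma M_ge : ENNReal.ofReal (27 / 10) ≤ M T := by
  have h1 : R (id '' T) (g '' T) ≤ M T := by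
    refine le_iSup_of_le id (le_iSup_of_le isometry_id (le_iSup_of_le g (le_iSup_of_le g_iso
      (le_iSup_of_le ⟨⟨pt 2 1, ?_, ?_⟩, ?_⟩ le_rfl))))
    · rw [image_id]; apply int_T <;> norm_num
    · apply int_g <;> norm_num
    · intro h
      have : pt 6 0 ∈ g '' T := by
        rw [← h, image_id, mem_T]; norm_num
      rw [mem_g] at this
      norm_num at this
  refine le_trans ?_ h1
  rw [image_id]
  refine le_trans (le_of_eq ?_) (ENNReal.div_le_div num_ge den_le)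
  rw [← ENNReal.ofReal_div_of_pos (by norm_num)]
  norm_num

lemma cos_le (a b c : E2) (x y : ℝ) (hx : 0 < x) (hy : 0 < y)
    (h1 : (a 0 - b 0) ^ 2 + (a 1 - b 1) ^ 2 = x ^ 2) (h2 : (c 0 - b 0) ^ 2 + (c 1 - b 1) ^ 2 = y ^ 2)
    (h3 : (a 0 - b 0) * (c 0 - b 0) + (a 1 - b 1) * (c 1 - b 1) ≤ 3 / 5 * (x * y)) :
    1 / Real.sin (∠ a b c / 2) < 27 / 10 := by
  have e1 : ‖a -ᵥ b‖ = x := by rw [← dist_eq_norm_vsub E2, dist2, h1, Real.sqrt_sq hx.le]
  have e2 : ‖c -ᵥ b‖ = y := by rw [← dist_eq_norm_vsub E2, dist2, h2, Real.sqrt_sq hy.le]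
  have hc : Real.cos (∠ a b c) ≤ 3 / 5 := by
    unfold EuclideanGeometry.angle
    rw [InnerProductGeometry.cos_angle, e1, e2, div_le_iff₀ (by positivity), PiLp.inner_apply,
      Fin.sum_univ_two]
    simp only [vsub_eq_sub, PiLp.sub_apply, RCLike.inner_apply, conj_trivial]
    linarith
  have h0 : 0 ≤ Real.sin (∠ a b c / 2) :=
    Real.sin_nonneg_of_nonneg_of_le_pi (by linarith [angle_nonneg a b c])
      (by linarith [angle_le_pi a b c, Real.pi_pos])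
  have hs : Real.sin (∠ a b c / 2) ^ 2 = 1 / 2 - Real.cos (∠ a b c) / 2 := by
    have := Real.cos_two_mul (∠ a b c / 2)
    rw [show 2 * (∠ a b c / 2) = ∠ a b c by ring] at this
    nlinarith [Real.sin_sq_add_cos_sq (∠ a b c / 2)]
  have h5 : 2 / 5 < Real.sin (∠ a b c / 2) := by nlinarith
  rw [div_lt_iff₀ (by linarith)]
  linarith

theorem result : ∃ a b c : E2, AffineIndependent ℝ ![a, b, c] ∧ dist a c = dist b c ∧
    ENNReal.ofReal (1 / Real.sin (minAngle a b c / 2)) < M (convexHull ℝ {a, b, c}) := by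
  refine ⟨pt 0 0, pt 6 0, pt 3 4, ?_, ?_, ?_⟩
  · rw [affineIndependent_iff_not_collinear_set, collinear_iff_of_mem (p₀ := pt 0 0) (by simp)]
    rintro ⟨v, hv⟩
    obtain ⟨r, hr⟩ := hv (pt 6 0) (by simp)
    obtain ⟨s, hs⟩ := hv (pt 3 4) (by simp)
    have a0 := congrArg (fun p : E2 => p 0) hr
    have a1 := congrArg (fun p : E2 => p 1) hr
    have b1 := congrArg (fun p : E2 => p 1) hs
    simp only [vadd_eq_add, PiLp.add_apply, PiLp.smul_apply, smul_eq_mul, pt0, pt1] at a0 a1 b1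
    have : r * v 1 = 0 := by linarith
    rcases mul_eq_zero.1 this with h | h
    · rw [h] at a0; norm_num at a0
    · rw [h] at b1; norm_num at b1
  · rw [dist2, dist2]; norm_num
  · refine lt_of_lt_of_le ((ENNReal.ofReal_lt_ofReal_iff (by norm_num)).2 ?_) M_ge
    have c1 := cos_le (pt 3 4) (pt 0 0) (pt 6 0) 5 6 (by norm_num) (by norm_num) (by norm_num)
      (by norm_num) (by norm_num)
    have c2 := cos_le (pt 0 0) (pt 6 0) (pt 3 4) 6 5 (by norm_num) (by norm_num) (by norm_num)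
      (by norm_num) (by norm_num)
    have c3 := cos_le (pt 6 0) (pt 3 4) (pt 0 0) 5 5 (by norm_num) (by norm_num) (by norm_num)
      (by norm_num) (by norm_num)
    unfold minAngle
    rcases min_choice (∠ (pt 3 4) (pt 0 0) (pt 6 0))
      (min (∠ (pt 0 0) (pt 6 0) (pt 3 4)) (∠ (pt 6 0) (pt 3 4) (pt 0 0))) with h | h
    · rw [h]; exact c1
    · rw [h]
      rcases min_choice (∠ (pt 0 0) (pt 6 0) (pt 3 4)) (∠ (pt 6 0) (pt 3 4) (pt 0 0)) with h | h
      · rw [h]; exact c2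
      · rw [h]; exact c3

end Pool.Agent.Results.MP_071e18_gt.Counter
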